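import Pool.Agent.AE33.Main
import Pool.Agent.AE95.Cherry

/-!
# Binary out-arborescences: from oriented trees to binary trees, cherry ranks
-/

namespace AE33

open Finset Relation AE32 AE95

/-- A binary tree describing the subtree of the oriented tree `E` below `v`. -/
theorem exists_bt {τ : Type*} [Fintype τ] [DecidableEq τ] {E : τ → τ → Prop} {h : τ → ℕ}
    (hE : ∀ a b, E a b → h a < h b) (hin : ∀ a b c, E a c → E b c → a = b) (hout : ∀ v, {w | E v w}.ncard ≤ 2)
    {V : Type*} [DecidableEq V] {R : V → V → Prop} {H : τ → Prop} (hH : ∀ v, Cher E v → H v)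
    (hH' : ∀ a c, E a c → H c → H a) {b : ℕ} {s t : τ → ℕ} (ht : ∀ v, t v ≤ b)
    (hs : ∀ a c, E a c → H c → s c < s a ∨ (s c = s a ∧ t c ≤ t a))
    (hss : ∀ a c d, E a c → E a d → c ≠ d → H c → H d → s c = s a → s d = s a → t c < t a ∧ t d < t a) (n : ℕ) :
    ∀ v, (desc E v).card = n → ∃ T : BT, T ≠ .nil ∧ T.size = (desc E v).card ∧
      ((T = lf → ∀ x, ¬ E v x) ∧ (¬ H v → CF T) ∧ Rk b (s v) (t v) T) ∧
      ∀ (x : V) (S : Finset V), Rt R T x S → ∃ f : τ → V, f v = x ∧ (∀ a ∈ desc E v, f a ∈ S) ∧
        (∀ a ∈ desc E v, ∀ b ∈ desc E v, f a = f b → a = b) ∧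
        ∀ a ∈ desc E v, ∀ b ∈ desc E v, E a b → R (f a) (f b) := by
  classical
  induction n using Nat.strong_induction_on with
  | _ n ih =>
    intro v hv
    have hfin : {w | E v w}.Finite := Set.toFinite _
    have hmem : ∀ x, x ∈ desc E v ↔ x = v ∨ ∃ c, E v c ∧ x ∈ desc E c := by
      intro x
      rw [mem_desc, ReflTransGen.cases_head_iff]
      constructor
      · rintro (h1 | ⟨c, h1, h2⟩)
        · exact Or.inl h1.symm
        · exact Or.inr ⟨c, h1, mem_desc.2 h2⟩
      · rintro (h1 | ⟨c, h1, h2⟩)
        · exact Or.inl h1.symm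
        · exact Or.inr ⟨c, h1, mem_desc.1 h2⟩
    have hlt : ∀ c, E v c → (desc E c).card < n := by
      intro c hc
      rw [← hv]
      refine card_lt_card ⟨desc_subset hc, fun hcon => ?_⟩
      exact notMem_desc hE hc (hcon (self_mem_desc v))
    -- the children
    have hcases : (∀ c, ¬ E v c) ∨ (∃ c, ∀ d, E v d ↔ d = c) ∨
        ∃ c d, c ≠ d ∧ ∀ e, E v e ↔ e = c ∨ e = d := by
      have h2 := hout v
      interval_cases hcard : {w | E v w}.ncard
      · left
        intro c hc
        rw [Set.ncard_eq_zero hfin] at hcard
        have : c ∈ {w | E v w} := hc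
        rw [hcard] at this
        exact this
      · right; left
        obtain ⟨c, hc⟩ := Set.ncard_eq_one.1 hcard
        refine ⟨c, fun d => ?_⟩
        have : d ∈ {w | E v w} ↔ d ∈ ({c} : Set τ) := by rw [hc]
        simpa using this
      · right; right
        obtain ⟨c, d, hcd, hc⟩ := Set.ncard_eq_two.1 hcard
        refine ⟨c, d, hcd, fun e => ?_⟩
        have : e ∈ {w | E v w} ↔ e ∈ ({c, d} : Set τ) := by rw [hc]
        simpa using this
    rcases hcases with hc0 | ⟨c, hc⟩ | ⟨c, d, hcd, hc⟩
    · -- a leaf
      have hD : desc E v = {v} := by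
        ext x
        rw [hmem, mem_singleton]
        constructor
        · rintro (h1 | ⟨c, h1, -⟩)
          · exact h1
          · exact absurd h1 (hc0 c)
        · exact Or.inl
      refine ⟨.node .nil .nil, by simp, by rw [hD]; rfl, ?_, ?_⟩
      · exact ⟨fun _ => hc0, fun _ => by simp [CF], Or.inl (by simp [CF])⟩
      · intro x S hS
        refine ⟨fun _ => x, rfl, ?_, ?_, ?_⟩
        · intro a _
          exact hS.mem (by simp)
        · intro a ha e he _
          rw [hD, mem_singleton] at ha he
          rw [ha, he]
        · intro a ha e _ hae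
          rw [hD, mem_singleton] at ha
          subst ha
          exact absurd hae (hc0 e)
    · -- one child
      have hvc : E v c := (hc c).2 rfl
      have hD : desc E v = insert v (desc E c) := by
        ext x
        rw [hmem, mem_insert]
        constructor
        · rintro (h1 | ⟨e, h1, h2⟩)
          · exact Or.inl h1
          · rw [(hc e).1 h1] at h2
            exact Or.inr h2
        · rintro (h1 | h1)
          · exact Or.inl h1
          · exact Or.inr ⟨c, hvc, h1⟩
      obtain ⟨T, hT1, hT2, hT3, hT4⟩ := ih _ (hlt c hvc) c rfl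
      have hnm := notMem_desc hE hvc
      refine ⟨.node T .nil, by simp, ?_, ?_, ?_⟩
      · rw [hD, card_insert_of_notMem hnm, ← hT2]
        simp [BT.size]
      · refine ⟨fun h1 => absurd (BT.node.inj h1).1 hT1, fun hv => ?_, ?_⟩
        · exact ⟨hT3.2.1 fun h => hv (hH' v c hvc h), trivial, fun h1 => absurd h1.2 (by simp)⟩
        · by_cases hHc : H c
          · refine Or.inr ⟨s c, t c, 0, 0, hT3.2.2, trivial, ?_, by omega, ht c, by omega, ?_, fun _ => by omega,
              fun _ h1 => absurd (show CF .nil from trivial) h1⟩
            · rcases hs v c hvc hHc with h | h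
              · exact h.le
              · exact h.1.le
            · intro h
              rcases hs v c hvc hHc with h' | h'
              · omega
              · exact h'.2
          · exact Or.inl ⟨hT3.2.1 hHc, trivial, fun h1 => absurd h1.2 (by simp)⟩
      · rintro x S ⟨y, A, B, hy, hyA, hyB, hAB, hSe, hA, hB⟩
        subst hy
        obtain ⟨z, hz, hzA⟩ := hA.root hT1
        obtain ⟨f, hf1, hf2, hf3, hf4⟩ := hT4 z A hzA
        have hne : ∀ a ∈ desc E c, a ≠ v := by
          rintro a ha rfl
          exact hnm ha
        refine ⟨fun a => if a = v then y else f a, by simp, ?_, ?_, ?_⟩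
        · intro a ha
          rw [hD, mem_insert] at ha
          rcases ha with rfl | ha
          · simp [hSe]
          · have := hf2 a ha
            simp only [hne a ha, if_false, hSe]
            grind
        · intro a ha e he hae
          rw [hD, mem_insert] at ha he
          rcases ha with rfl | ha
          · rcases he with rfl | he
            · rfl
            · have := hf2 e he
              simp only [hne e he, if_false, if_true] at hae
              rw [← hae] at this
              exact absurd this hyA
          · rcases he with rfl | he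
            · have := hf2 a ha
              simp only [hne a ha, if_false, if_true] at hae
              rw [hae] at this
              exact absurd this hyA
            · simp only [hne a ha, hne e he, if_false] at hae
              exact hf3 a ha e he hae
        · intro a ha e he hae
          rw [hD, mem_insert] at ha he
          rcases ha with rfl | ha
          · have := (hc e).1 hae
            subst this
            simp only [hne e (self_mem_desc e), if_false, if_true, hf1]
            exact hz
          · rcases he with rfl | he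
            · have h1 := rank_le hE (mem_desc.1 ha)
              have h2 := hE _ _ hae
              have h3 := hE _ _ hvc
              omega
            · simp only [hne a ha, hne e he, if_false]
              exact hf4 a ha e he hae
    · -- two children
      have hvc : E v c := (hc c).2 (Or.inl rfl)
      have hvd : E v d := (hc d).2 (Or.inr rfl)
      have hD : desc E v = insert v (desc E c ∪ desc E d) := by
        ext x
        rw [hmem, mem_insert, mem_union]
        constructor
        · rintro (h1 | ⟨e, h1, h2⟩)
          · exact Or.inl h1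
          · rcases (hc e).1 h1 with rfl | rfl
            · exact Or.inr (Or.inl h2)
            · exact Or.inr (Or.inr h2)
        · rintro (h1 | h1 | h1)
          · exact Or.inl h1
          · exact Or.inr ⟨c, hvc, h1⟩
          · exact Or.inr ⟨d, hvd, h1⟩
      obtain ⟨T, hT1, hT2, hT3, hT4⟩ := ih _ (hlt c hvc) c rfl
      obtain ⟨T', hT1', hT2', hT3', hT4'⟩ := ih _ (hlt d hvd) d rfl
      have hnm := notMem_desc hE hvc
      have hnm' := notMem_desc hE hvd
      have hdis := desc_disjoint hE hin hvc hvd hcd
      refine ⟨.node T T', by simp, ?_, ?_, ?_⟩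
      · rw [hD, card_insert_of_notMem (by simp [hnm, hnm']), card_union_of_disjoint hdis, ← hT2, ← hT2']
        simp [BT.size]
      · refine ⟨fun h1 => absurd (BT.node.inj h1).1 hT1, fun hv => ?_, ?_⟩
        · exact ⟨hT3.2.1 fun h => hv (hH' v c hvc h), hT3'.2.1 fun h => hv (hH' v d hvd h),
            fun h1 => hv (hH v ⟨c, d, hcd, hc, hT3.1 h1.1, hT3'.1 h1.2⟩)⟩
        · right
          have key : ∀ (e : τ) (U : BT), E v e → (¬ H e → CF U) → Rk b (s e) (t e) U → ∃ s₁ t₁, Rk b s₁ t₁ U ∧
              s₁ ≤ s v ∧ t₁ ≤ b ∧ (s₁ = s v → t₁ ≤ t v) ∧ (¬ CF U → H e ∧ s₁ = s e ∧ t₁ = t e) := by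
            intro e U he h1 h2
            by_cases hHe : H e
            · refine ⟨s e, t e, h2, ?_, ht e, ?_, fun _ => ⟨hHe, rfl, rfl⟩⟩
              · rcases hs v e he hHe with h | h
                · exact h.le
                · exact h.1.le
              · intro h
                rcases hs v e he hHe with h' | h'
                · omega
                · exact h'.2
            · exact ⟨0, 0, Rk.of_cf (h1 hHe), by omega, by omega, fun _ => by omega, fun h => absurd (h1 hHe) h⟩
          obtain ⟨s₁, t₁, k1, k2, k3, k4, k5⟩ := key c T hvc hT3.2.1 hT3.2.2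
          obtain ⟨s₂, t₂, l1, l2, l3, l4, l5⟩ := key d T' hvd hT3'.2.1 hT3'.2.2
          refine ⟨s₁, t₁, s₂, t₂, k1, l1, k2, l2, k3, l3, k4, l4, ?_⟩
          intro n1 n2 n3 n4
          obtain ⟨p1, rfl, rfl⟩ := k5 n1
          obtain ⟨p2, rfl, rfl⟩ := l5 n2
          exact hss v c d hvc hvd hcd p1 p2 n3 n4
      · rintro x S ⟨y, A, B, hy, hyA, hyB, hAB, hSe, hA, hB⟩
        subst hy
        obtain ⟨z, hz, hzA⟩ := hA.root hT1
        obtain ⟨z', hz', hzB⟩ := hB.root hT1'
        obtain ⟨f, hf1, hf2, hf3, hf4⟩ := hT4 z A hzA
        obtain ⟨f', hf1', hf2', hf3', hf4'⟩ := hT4' z' B hzB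
        have hne : ∀ a ∈ desc E c, a ≠ v := by
          rintro a ha rfl
          exact hnm ha
        have hne' : ∀ a ∈ desc E d, a ≠ v := by
          rintro a ha rfl
          exact hnm' ha
        have hnd : ∀ a ∈ desc E d, a ∉ desc E c := fun a ha ha' => disjoint_left.1 hdis ha' ha
        refine ⟨fun a => if a = v then y else if a ∈ desc E c then f a else f' a, by simp, ?_, ?_, ?_⟩
        · intro a ha
          rw [hD, mem_insert, mem_union] at ha
          rcases ha with rfl | ha | ha
          · simp [hSe]
          · have := hf2 a ha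
            simp only [hne a ha, ha, if_false, if_true, hSe]
            grind
          · have := hf2' a ha
            simp only [hne' a ha, hnd a ha, if_false, hSe]
            grind
        · intro a ha e he hae
          rw [hD, mem_insert, mem_union] at ha he
          rcases ha with rfl | ha | ha
          · rcases he with rfl | he | he
            · rfl
            · have := hf2 e he
              simp only [hne e he, he, if_false, if_true] at hae
              rw [← hae] at this
              exact absurd this hyA
            · have := hf2' e he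
              simp only [hne' e he, hnd e he, if_false, if_true] at hae
              rw [← hae] at this
              exact absurd this hyB
          · rcases he with rfl | he | he
            · have := hf2 a ha
              simp only [hne a ha, ha, if_false, if_true] at hae
              rw [hae] at this
              exact absurd this hyA
            · simp only [hne a ha, hne e he, ha, he, if_false, if_true] at hae
              exact hf3 a ha e he hae
            · simp only [hne a ha, hne' e he, ha, hnd e he, if_false, if_true] at hae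
              have h1 := hf2 a ha
              have h2 := hf2' e he
              rw [hae] at h1
              exact absurd h2 (disjoint_left.1 hAB h1)
          · rcases he with rfl | he | he
            · have := hf2' a ha
              simp only [hne' a ha, hnd a ha, if_false, if_true] at hae
              rw [hae] at this
              exact absurd this hyB
            · simp only [hne' a ha, hne e he, hnd a ha, he, if_false, if_true] at hae
              have h1 := hf2' a ha
              have h2 := hf2 e he
              rw [← hae] at h2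
              exact absurd h1 (disjoint_left.1 hAB h2)
            · simp only [hne' a ha, hne' e he, hnd a ha, hnd e he, if_false] at hae
              exact hf3' a ha e he hae
        · intro a ha e he hae
          rw [hD, mem_insert, mem_union] at ha he
          rcases ha with rfl | ha | ha
          · rcases (hc e).1 hae with rfl | rfl
            · simp only [hne e (self_mem_desc e), self_mem_desc e, if_false, if_true, hf1]
              exact hz
            · simp only [hne' e (self_mem_desc e), hnd e (self_mem_desc e), if_false, if_true, hf1']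
              exact hz'
          · have he' : e ∈ desc E c := mem_desc.2 ((mem_desc.1 ha).tail hae)
            simp only [hne a ha, hne e he', ha, he', if_false, if_true]
            exact hf4 a ha e he' hae
          · have he' : e ∈ desc E d := mem_desc.2 ((mem_desc.1 ha).tail hae)
            simp only [hne' a ha, hne' e he', hnd a ha, hnd e he', if_false]
            exact hf4' a ha e he' hae



theorem final_rank {k n : ℕ} {R : Fin n → Fin n → Prop} (hT : Tour R) {E : Fin (k + 1) → Fin (k + 1) → Prop}
    (hanti : ∀ a b, E a b → ¬ E b a) (hG : (SimpleGraph.fromRel E).IsTree)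
    (hin : ∀ a b c, E a c → E b c → a = b) (hout : ∀ v, {w | E v w}.ncard ≤ 2) {b S : ℕ} {H : Fin (k + 1) → Prop}
    (hH : ∀ v, {w | E v w}.ncard = 2 → (∀ w, E v w → ∀ x, ¬ E w x) → H v) (hH' : ∀ a c, E a c → H c → H a)
    {s t : Fin (k + 1) → ℕ} (hS : ∀ v, s v ≤ S) (ht : ∀ v, t v ≤ b)
    (hs : ∀ a c, E a c → H c → s c < s a ∨ (s c = s a ∧ t c ≤ t a))
    (hss : ∀ a c d, E a c → E a d → c ≠ d → H c → H d → s c = s a → s d = s a → t c < t a ∧ t d < t a)
    (hn : k + 4 * (b + 1) ^ 2 * 10 ^ (S + 1) ≤ n) :
    ∃ f : Fin (k + 1) → Fin n, Function.Injective f ∧ ∀ a b, E a b → R (f a) (f b) := by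
  classical
  obtain ⟨h, hE⟩ := GS78.exists_rank hanti hG.2
  obtain ⟨ρ, hρ⟩ := exists_root hin hE hG.1
  have hP : ∀ v, Cher E v → H v := by
    rintro v ⟨c, d, hcd, h1, h2, h3⟩
    have e : {w | E v w} = {c, d} := by
      ext w
      simp [h1]
    refine hH v ?_ ?_
    · rw [e, Set.ncard_pair hcd]
    · intro w hw
      rcases (h1 w).1 hw with rfl | rfl
      · exact h2
      · exact h3
  obtain ⟨T, hT1, hT2, ⟨-, -, hT3⟩, hT4⟩ := AE33.exists_bt (R := R) hE hin hout hP hH' ht hs hss _ ρ rfl
  have h1 : T.size = k + 1 := by rw [hT2, hρ, card_univ, Fintype.card_fin]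
  have hk2 : 1 ≤ (b + 1) ^ 2 := Nat.one_le_pow _ _ (by omega)
  have key := embed (V := Fin n) (R := R) (Y := 4 * (b + 1) ^ 2 * 10 ^ (S + 1) - 3 * (b + 1) ^ 2)
    (fun T => ∃ s' ≤ S, ∃ t' ≤ b, Rk b s' t' T) ?_ ?_ T ⟨s ρ, hS ρ, t ρ, ht ρ, hT3⟩ univ ?_
  · obtain ⟨A, -, hA⟩ := key
    obtain ⟨x, -, hx⟩ := hA.root hT1
    obtain ⟨f, -, -, hf3, hf4⟩ := hT4 x A hx
    rw [hρ] at hf3 hf4
    exact ⟨f, fun a b hab => hf3 a (mem_univ _) b (mem_univ _) hab,
      fun a b hab => hf4 a (mem_univ _) b (mem_univ _) hab⟩
  · rintro l r ⟨s', hs', t', ht', h0⟩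
    rcases h0 with h0 | ⟨s₁, t₁, s₂, t₂, h1, h2, h3, h4, h5, h6, -⟩
    · exact ⟨⟨0, by omega, 0, by omega, Rk.of_cf h0.1⟩, ⟨0, by omega, 0, by omega, Rk.of_cf h0.2.1⟩⟩
    · exact ⟨⟨s₁, by omega, t₁, h5, h1⟩, ⟨s₂, by omega, t₂, h6, h2⟩⟩
  · rintro T ⟨s', hs', t', ht', h1⟩
    refine (pn_of_rk hT b s' T t' ht' h1).mono ?_
    have : 4 * (b + 1) ^ 2 * 10 ^ (s' + 1) ≤ 4 * (b + 1) ^ 2 * 10 ^ (S + 1) :=
      Nat.mul_le_mul_left _ (Nat.pow_le_pow_right (by norm_num) (by omega))
    omega
  · rw [h1, card_univ, Fintype.card_fin]
    have : 4 * (b + 1) ^ 2 * 1 ≤ 4 * (b + 1) ^ 2 * 10 ^ (S + 1) :=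
      Nat.mul_le_mul_left _ (Nat.one_le_pow _ _ (by norm_num))
    omega

end AE33
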