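import Pool.Agent.AE33.Step
import Pool.Agent.AE95.Close

/-!
# Binary out-arborescences: the class induction with cherry-free subtrees at the bottom
-/

namespace AE33

open Finset AE32 AE95

variable {V : Type*} [DecidableEq V] {R : V → V → Prop}

/-- trees without cherries are flexible with a pool of size one -/
theorem pc_cf (hT : Tour R) {L : BT} (hC : CF L) (hL : L ≠ .nil) : PC R 1 L := by
  intro ℓ B Q hB hd hQ
  obtain ⟨r, hr⟩ : Q.Nonempty := card_pos.1 (by omega)
  have hℓB := hB.mem hL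
  have hrB : r ∉ B := fun h => disjoint_left.1 hd h hr
  have hbd : Bd R L ℓ (B.erase ℓ) := ⟨by simp, by rwa [insert_erase hℓB]⟩
  have hrl : r ≠ ℓ := by
    rintro rfl
    exact hrB hℓB
  rcases fl_all hT L.size L rfl hC hL ℓ (B.erase ℓ) r hbd (fun h => hrB (mem_of_mem_erase h)) hrl with h | ⟨h1, h2⟩
  · left
    obtain ⟨y, h3, h4⟩ := Emb.root h hL
    refine ⟨y, _, h3, h4, ?_⟩
    intro x hx
    rw [mem_insert] at hx
    rw [mem_union]
    rcases hx with rfl | hx
    · exact Or.inr hr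
    · exact Or.inl hx
  · right
    exact ⟨r, hr, h1, h2.2⟩

/-- Trees built from flexible light subtrees, with at most `b` large branchings on every path from the root. -/
inductive Core (R : V → V → Prop) (X : ℕ) : ℕ → BT → Prop
  | leaf (b : ℕ) : Core R X b (.node .nil .nil)
  | un (b : ℕ) (T : BT) : Core R X b T → Core R X b (.node T .nil)
  | path (b : ℕ) (T L : BT) : Core R X b T → L ≠ .nil → PC R X L → Core R X b (.node T L)
  | branch (b : ℕ) (S₁ S₂ : BT) : Core R X b S₁ → Core R X b S₂ → Core R X (b + 1) (.node S₁ S₂)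
  | swap (b : ℕ) (l r : BT) : Core R X b (.node l r) → Core R X b (.node r l)

theorem Core.ne_nil {X b : ℕ} {T : BT} (h : Core R X b T) : T ≠ .nil := by
  cases h <;> simp

theorem Core.mono {X b b' : ℕ} {T : BT} (h : Core R X b T) (hb : b ≤ b') : Core R X b' T := by
  induction h generalizing b' with
  | leaf b => exact Core.leaf b'
  | un b T hc ih => exact Core.un b' T (ih hb)
  | path b T L hc hL hP ih => exact Core.path b' T L (ih hb) hL hP
  | branch b S₁ S₂ h1 h2 ih1 ih2 =>
    obtain ⟨c, rfl⟩ : ∃ c, b' = c + 1 := ⟨b' - 1, by omega⟩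
    exact Core.branch c S₁ S₂ (ih1 (by omega)) (ih2 (by omega))
  | swap b l r hc ih => exact Core.swap b' l r (ih hb)

theorem Core.phi (hT : Tour R) {X : ℕ} (hX : 1 ≤ X) {b : ℕ} {T : BT} (h : Core R X b T) :
    Phi R (3 * b + 2) (3 * b + 4) (X + 2 * b * (b + 1)) (2 * X + 3 * b + 2 + 2 * b * (b + 1))
      (X + 3 * b + 4 + 2 * b * (b + 1)) T := by
  induction h with
  | leaf b => exact phi_leaf (by omega) (by omega)
  | un b T hc ih => exact phi_unary hT hc.ne_nil ih (by omega)
  | path b T L hc hL hP ih =>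
    exact AE33.phi_path hT hc.ne_nil hL ih hP (by omega) (by omega) (by omega) hX (by omega) (by omega)
  | branch b S₁ S₂ h1 h2 ih1 ih2 =>
    refine (phi_branch (f' := 3 * (b + 1) + 4) hT h1.ne_nil h2.ne_nil ih1 ih2 (by omega)).mono (by omega) le_rfl ?_ ?_ ?_
    · have : 2 * (b + 1) * (b + 1 + 1) = 2 * b * (b + 1) + 4 * (b + 1) := by ring
      omega
    · have : 2 * (b + 1) * (b + 1 + 1) = 2 * b * (b + 1) + 4 * (b + 1) := by ring
      omega
    · have : 2 * (b + 1) * (b + 1 + 1) = 2 * b * (b + 1) + 4 * (b + 1) := by ring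
      omega
  | swap b l r hc ih => exact phi_swap ih

/-- the new pool size -/
theorem Core.pn (hT : Tour R) {X : ℕ} (hX : 1 ≤ X) {b : ℕ} {l r : BT} (hl : l = .nil ∨ Core R X b l)
    (hr : r = .nil ∨ Core R X b r) : PN R (10 * X + 24 * (b + 1) ^ 2) (.node l r) := by
  have hnum : 2 * ((X + 2 * b * (b + 1)) + (2 * X + 3 * b + 2 + 2 * b * (b + 1)) +
      2 * (X + 3 * b + 4 + 2 * b * (b + 1))) + (3 * b + 4) ≤ 10 * X + 24 * (b + 1) ^ 2 := by
    nlinarith
  rcases hl with rfl | hl
  · rcases hr with rfl | hr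
    · exact pn_leaf.mono (by omega)
    · exact (pn_unary hT hr.ne_nil (hr.phi hT hX) (by omega) (by omega)).swap
  · rcases hr with rfl | hr
    · exact pn_unary hT hl.ne_nil (hl.phi hT hX) (by omega) (by omega)
    · exact pn_close hT hl.ne_nil hr.ne_nil (hl.phi hT hX) (hr.phi hT hX) (by omega) (by omega) hnum

/-- trees without cherries belong to the class -/
theorem core_cf (hT : Tour R) {X : ℕ} (hX : 1 ≤ X) (b : ℕ) (T : BT) : CF T → T ≠ .nil → Core R X b T := by
  induction T with
  | nil => exact fun _ h => absurd rfl h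
  | node l r ihl ihr =>
    intro hC _
    by_cases hl : l = .nil
    · by_cases hr : r = .nil
      · subst hl hr
        exact Core.leaf b
      · subst hl
        exact (Core.un b r (ihr hC.2.1 hr)).swap
    · by_cases hr : r = .nil
      · subst hr
        exact Core.un b l (ihl hC.1 hl)
      · exact Core.path b l r (ihl hC.1 hl) hr ((pc_cf hT hC.2.1 hr).mono hX)

/-- `Rk b s t T`: rank certificate, ranks are needed only for subtrees with a cherry -/
def Rk (b : ℕ) : ℕ → ℕ → BT → Prop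
  | _, _, .nil => True
  | s, t, .node l r => CF (.node l r) ∨ ∃ s₁ t₁ s₂ t₂, Rk b s₁ t₁ l ∧ Rk b s₂ t₂ r ∧ s₁ ≤ s ∧ s₂ ≤ s ∧ t₁ ≤ b ∧ t₂ ≤ b ∧
      (s₁ = s → t₁ ≤ t) ∧ (s₂ = s → t₂ ≤ t) ∧ (¬ CF l → ¬ CF r → s₁ = s → s₂ = s → t₁ < t ∧ t₂ < t)

theorem Rk.mono {b s t s' t' : ℕ} {T : BT} (h : Rk b s t T) (hs : s < s' ∨ (s = s' ∧ t ≤ t')) : Rk b s' t' T := by
  cases T with
  | nil => trivial
  | node l r =>
    rcases h with h | ⟨s₁, t₁, s₂, t₂, h1, h2, h3, h4, h5, h6, h7, h8, h9⟩
    · exact Or.inl h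
    refine Or.inr ⟨s₁, t₁, s₂, t₂, h1, h2, by omega, by omega, h5, h6, ?_, ?_, ?_⟩
    · intro h
      rcases hs with hs | ⟨rfl, hs⟩
      · omega
      · exact (h7 h).trans hs
    · intro h
      rcases hs with hs | ⟨rfl, hs⟩
      · omega
      · exact (h8 h).trans hs
    · intro hl hr h h'
      rcases hs with hs | ⟨rfl, hs⟩
      · omega
      · have := h9 hl hr h h'
        omega

theorem Rk.of_cf {b s t : ℕ} {T : BT} (h : CF T) : Rk b s t T := by
  cases T with
  | nil => trivial
  | node l r => exact Or.inl h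

theorem core_of_rk (hT : Tour R) {X b s : ℕ} (hX : 1 ≤ X) (hm : ∀ s' < s, ∀ t' ≤ b, ∀ L : BT, Rk b s' t' L → PN R X L)
    (T : BT) : ∀ t, T ≠ .nil → t ≤ b → Rk b s t T → Core R X t T := by
  induction T with
  | nil => exact fun t h => absurd rfl h
  | node l r ihl ihr =>
    intro t hne ht hR
    by_cases hcf : CF (.node l r)
    · exact core_cf hT hX t _ hcf hne
    obtain ⟨s₁, t₁, s₂, t₂, h1, h2, h3, h4, h5, h6, h7, h8, h9⟩ := hR.resolve_left hcf
    have hl' : Rk b s t l := h1.mono (by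
      rcases Nat.lt_or_ge s₁ s with h | h
      · exact Or.inl h
      · exact Or.inr ⟨by omega, h7 (by omega)⟩)
    have hr' : Rk b s t r := h2.mono (by
      rcases Nat.lt_or_ge s₂ s with h | h
      · exact Or.inl h
      · exact Or.inr ⟨by omega, h8 (by omega)⟩)
    by_cases hl : l = .nil
    · by_cases hr : r = .nil
      · subst hl hr
        exact Core.leaf t
      · subst hl
        exact (Core.un t r (ihr t hr ht hr')).swap
    · by_cases hr : r = .nil
      · subst hr
        exact Core.un t l (ihl t hl ht hl')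
      · by_cases hcr : CF r
        · exact Core.path t l r (ihl t hl ht hl') hr ((pc_cf hT hcr hr).mono hX)
        by_cases hcl : CF l
        · exact (Core.path t r l (ihr t hr ht hr') hl ((pc_cf hT hcl hl).mono hX)).swap
        rcases Nat.lt_or_ge s₂ s with hs2 | hs2
        · exact Core.path t l r (ihl t hl ht hl') hr (PC.of_pn hT (hm s₂ hs2 t₂ h6 r h2) hr)
        · rcases Nat.lt_or_ge s₁ s with hs1 | hs1
          · exact (Core.path t r l (ihr t hr ht hr') hl (PC.of_pn hT (hm s₁ hs1 t₁ h5 l h1) hl)).swap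
          · obtain ⟨h10, h11⟩ := h9 hcl hcr (by omega) (by omega)
            obtain ⟨c, rfl⟩ : ∃ c, t = c + 1 := ⟨t - 1, by omega⟩
            exact Core.branch c l r (ihl c hl (by omega) (h1.mono (Or.inr ⟨by omega, by omega⟩)))
              (ihr c hr (by omega) (h2.mono (Or.inr ⟨by omega, by omega⟩)))

theorem pn_of_rk (hT : Tour R) (b : ℕ) (s : ℕ) : ∀ (T : BT) (t : ℕ), t ≤ b → Rk b s t T →
    PN R (4 * (b + 1) ^ 2 * 10 ^ (s + 1) - 3 * (b + 1) ^ 2) T := by
  induction s using Nat.strong_induction_on with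
  | _ s ih =>
    intro T t ht hR
    have hk2 : 1 ≤ (b + 1) ^ 2 := Nat.one_le_pow _ _ (by omega)
    have hten : 1 ≤ 10 ^ s := Nat.one_le_pow _ _ (by norm_num)
    have hmul : 4 * (b + 1) ^ 2 * 1 ≤ 4 * (b + 1) ^ 2 * 10 ^ s := Nat.mul_le_mul_left _ hten
    have hX : 1 ≤ 4 * (b + 1) ^ 2 * 10 ^ s - 3 * (b + 1) ^ 2 := by omega
    have hm : ∀ s' < s, ∀ t' ≤ b, ∀ L : BT, Rk b s' t' L →
        PN R (4 * (b + 1) ^ 2 * 10 ^ s - 3 * (b + 1) ^ 2) L := by
      intro s' hs' t' ht' L hL
      refine (ih s' hs' L t' ht' hL).mono ?_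
      have : 4 * (b + 1) ^ 2 * 10 ^ (s' + 1) ≤ 4 * (b + 1) ^ 2 * 10 ^ s :=
        Nat.mul_le_mul_left _ (Nat.pow_le_pow_right (by norm_num) hs')
      omega
    cases T with
    | nil => trivial
    | node l r =>
      have hsub : Rk b s b l ∧ Rk b s b r := by
        rcases hR with hR | ⟨s₁, t₁, s₂, t₂, h1, h2, h3, h4, h5, h6, h7, h8, h9⟩
        · exact ⟨Rk.of_cf hR.1, Rk.of_cf hR.2.1⟩
        · constructor
          · exact h1.mono (by
              rcases Nat.lt_or_ge s₁ s with h | h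
              · exact Or.inl h
              · exact Or.inr ⟨by omega, h5⟩)
          · exact h2.mono (by
              rcases Nat.lt_or_ge s₂ s with h | h
              · exact Or.inl h
              · exact Or.inr ⟨by omega, h6⟩)
      have hcore : ∀ u : BT, Rk b s b u → u = .nil ∨ Core R (4 * (b + 1) ^ 2 * 10 ^ s - 3 * (b + 1) ^ 2) b u := by
        intro u hu
        by_cases h : u = .nil
        · exact Or.inl h
        · exact Or.inr (core_of_rk hT hX hm u b h le_rfl hu)
      refine (Core.pn hT hX (hcore l hsub.1) (hcore r hsub.2)).mono ?_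
      have e2 : 4 * (b + 1) ^ 2 * 10 ^ (s + 1) = 10 * (4 * (b + 1) ^ 2 * 10 ^ s) := by ring
      rw [e2]
      omega

end AE33
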